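import Pool.Agent.Helper74.RN.St

set_option autoImplicit false

/-!
# RN module POS: the position of a letter in a word of blocks
-/

namespace Pool.Agent.Helper33.RN

open Pool.Agent.Helper74 Pool.Agent.Helper74.RN

private theorem fact {α : Type} {P Z m X : List α} {w : α} (hP : ∀ z ∈ P, z ≠ w)
    (h : P ++ Z = m ++ w :: X) : ∃ m₁, m = P ++ m₁ ∧ Z = m₁ ++ w :: X := by
  rw [List.append_eq_append_iff] at h
  rcases h with ⟨a', h1, h2⟩ | ⟨c', h1, h2⟩
  · exact ⟨a', h1, h2⟩
  · cases c' with
    | nil =>
      refine ⟨[], ?_, ?_⟩
      · simpa using h1.symm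
      · simpa using h2.symm
    | cons d c'' =>
      exfalso
      rw [List.cons_append, List.cons.injEq] at h2
      refine hP d ?_ h2.1.symm
      rw [h1]
      simp

private theorem flat_cons {G : Type} (N : ℕ) (B : Ce G) (l : List (Ce G)) (q : List (Ce G)) :
    (B :: l).flatMap (bk N) ++ q
      = List.replicate N B ++ .s :: (List.replicate N .c ++ .s :: (l.flatMap (bk N) ++ q)) := by
  simp [List.flatMap_cons, bk, List.append_assoc]

theorem hPOS (_hFCT : StFCT) : StPOS := by
  intro G N y l
  induction l with
  | nil =>
    intro q m X r _ hq hr hX h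
    exfalso
    have h' : (r ++ [Ce.s]) ++ q = m ++ .a y :: X := by
      simpa using h
    obtain ⟨m₁, -, h2⟩ := fact (P := r ++ [Ce.s]) (w := Ce.a y) (by
      intro z hz
      rw [List.mem_append, List.mem_singleton] at hz
      rcases hz with hz | hz
      · rw [hr z hz]; simp
      · rw [hz]; simp) h'
    refine hq Ce.s ?_ rfl
    rw [h2]
    simp [hX]
  | cons B l' ih =>
    intro q m X r hl hq hr hX h
    have hl' : ns l' := fun z hz => hl z (List.mem_cons_of_mem _ hz)
    have h' : (r ++ [Ce.s]) ++ ((B :: l').flatMap (bk N) ++ q) = m ++ .a y :: X := by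
      rw [List.append_assoc, List.singleton_append]
      exact h
    obtain ⟨m₁, h1, h2⟩ := fact (P := r ++ [Ce.s]) (w := Ce.a y) (by
      intro z hz
      rw [List.mem_append, List.mem_singleton] at hz
      rcases hz with hz | hz
      · rw [hr z hz]; simp
      · rw [hz]; simp) h'
    rw [flat_cons, List.append_eq_append_iff] at h2
    rcases h2 with ⟨a', h3, h4⟩ | ⟨c', h3, h4⟩
    · cases a' with
      | nil =>
        exfalso
        simp at h4
      | cons d m₃ =>
        rw [List.cons_append, List.cons.injEq] at h4
        obtain ⟨h5, h6⟩ := h4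
        obtain ⟨u', v, t, h7, h8, h9, h10⟩ := ih q m₃ X (List.replicate N .c) hl' hq
          (fun z hz => List.eq_of_mem_replicate hz) hX h6
        refine ⟨B :: u', v, t, ?_, h8, ?_, h10⟩
        · rw [h7]; rfl
        · rw [h1, h3, h9, ← h5, flat_cons, List.append_assoc, List.singleton_append]
    · cases c' with
      | nil =>
        exfalso
        simp at h4
      | cons d c'' =>
        rw [List.cons_append, List.cons.injEq] at h4
        obtain ⟨h5, h6⟩ := h4
        have h7 : m₁ ++ d :: c'' = List.replicate N B := h3.symm
        rw [List.append_eq_replicate_iff] at h7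
        obtain ⟨h8, h9, h10⟩ := h7
        rw [List.length_cons, List.replicate_succ, List.cons.injEq] at h10
        obtain ⟨h11, h12⟩ := h10
        rw [List.length_cons] at h8
        have hB : B = Ce.a y := by rw [← h11, ← h5]
        refine ⟨[], l', m₁.length, ?_, by omega, ?_, ?_⟩
        · rw [hB]; rfl
        · rw [h1, List.append_assoc, List.singleton_append]
          congr 2
          rw [List.flatMap_nil, List.nil_append, ← hB]
          exact h9
        · rw [h6, h12, hB]
          have : c''.length = N - 1 - m₁.length := by omega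
          rw [this]

end Pool.Agent.Helper33.RN
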